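import Mathlib
import Pool.Agent.Helper69.PerB

/-!
All periodic equations `x_{n+k} = (A_0 + ∑ A_j x_{n+j-1}) / (B_0 + ∑ B_j x_{n+j-1})` with nonnegative coefficients,
with their minimal periods.
-/

set_option autoImplicit false

namespace Pool.Agent.Results.MP_3c0c89_an.PeriodicEquations

open Pool.Agent.Helper69.PerA

/-- The right-hand side `(A_0 + ∑_{j=1}^k A_j y_{j-1}) / (B_0 + ∑_{j=1}^k B_j y_{j-1})` of equation (1). -/
noncomputable def rhs (k : ℕ) (A B : Fin (k + 1) → ℝ) (y : ℕ → ℝ) : ℝ :=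
  (A 0 + ∑ j : Fin k, A j.succ * y (j : ℕ)) / (B 0 + ∑ j : Fin k, B j.succ * y (j : ℕ))

/-- `x` is the sequence produced by (1) from the positive starting values `x 0, …, x (k - 1)`. -/
def IsSolution (k : ℕ) (A B : Fin (k + 1) → ℝ) (x : ℕ → ℝ) : Prop :=
  (∀ i < k, 0 < x i) ∧ ∀ n, x (n + k) = rhs k A B fun i => x (n + i)

/-- Equation (1) is `p`-periodic: `p ≥ 1` is minimal such that `x_{n+p} = x_n` for all its positive solutions. -/
def IsPeriodic (k : ℕ) (A B : Fin (k + 1) → ℝ) (p : ℕ) : Prop :=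
  IsLeast {q : ℕ | 1 ≤ q ∧ ∀ x : ℕ → ℝ, IsSolution k A B x → ∀ n, x (n + q) = x n} p

/-- `x_{n+d} = F (x_n, …, x_{n+d-1})` is one of the five equations `x_{n+1} = x_n`, `x_{n+1} = 1 / x_n`,
`x_{n+2} = x_{n+1} / x_n`, `x_{n+2} = (1 + x_{n+1}) / x_n`, `x_{n+3} = (1 + x_{n+1} + x_{n+2}) / x_n`, and `P` is
its period `1`, `2`, `6`, `5`, `8`. -/
def IsBasic (d P : ℕ) (F : (ℕ → ℝ) → ℝ) : Prop :=
  (d = 1 ∧ P = 1 ∧ F = fun x => x 0) ∨
  (d = 1 ∧ P = 2 ∧ F = fun x => 1 / x 0) ∨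
  (d = 2 ∧ P = 6 ∧ F = fun x => x 1 / x 0) ∨
  (d = 2 ∧ P = 5 ∧ F = fun x => (1 + x 1) / x 0) ∨
  (d = 3 ∧ P = 8 ∧ F = fun x => (1 + x 1 + x 2) / x 0)

/-- Equation (1) is obtained from one of the five basic equations, of order `d` and period `P`, by the passage to
the step `ℓ` and the rescaling `y_n = a x_n`, and `p = P ℓ`. -/
def IsEquivalent (k : ℕ) (A B : Fin (k + 1) → ℝ) (p : ℕ) : Prop :=
  ∃ (d P : ℕ) (F : (ℕ → ℝ) → ℝ), IsBasic d P F ∧ ∃ ℓ : ℕ, 1 ≤ ℓ ∧ ∃ a : ℝ, 0 < a ∧ k = d * ℓ ∧ p = P * ℓ ∧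
    ∀ y : ℕ → ℝ, (∀ i, 0 < y i) → rhs k A B y = a * F fun j => y (j * ℓ) / a

/-- The same in terms of the coefficients (which are determined up to a common factor `c > 0`). -/
def CoefficientForm (k : ℕ) (A B : Fin (k + 1) → ℝ) (p : ℕ) : Prop :=
  ∃ (ℓ : ℕ) (a c : ℝ), 1 ≤ ℓ ∧ 0 < a ∧ 0 < c ∧
    ((k = ℓ ∧ p = ℓ ∧ (∀ i, A i = if (i : ℕ) = 1 then c else 0) ∧ ∀ i, B i = if (i : ℕ) = 0 then c else 0) ∨
     (k = ℓ ∧ p = 2 * ℓ ∧ (∀ i, A i = if (i : ℕ) = 0 then c * a ^ 2 else 0) ∧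
        ∀ i, B i = if (i : ℕ) = 1 then c else 0) ∨
     (k = 2 * ℓ ∧ p = 6 * ℓ ∧ (∀ i, A i = if (i : ℕ) = ℓ + 1 then c * a else 0) ∧
        ∀ i, B i = if (i : ℕ) = 1 then c else 0) ∨
     (k = 2 * ℓ ∧ p = 5 * ℓ ∧
        (∀ i, A i = if (i : ℕ) = 0 then c * a ^ 2 else if (i : ℕ) = ℓ + 1 then c * a else 0) ∧
        ∀ i, B i = if (i : ℕ) = 1 then c else 0) ∨
     (k = 3 * ℓ ∧ p = 8 * ℓ ∧
        (∀ i, A i = if (i : ℕ) = 0 then c * a ^ 2 else
          if (i : ℕ) = ℓ + 1 ∨ (i : ℕ) = 2 * ℓ + 1 then c * a else 0) ∧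
        ∀ i, B i = if (i : ℕ) = 1 then c else 0))

/-! ### The five basic equations -/

private theorem basic_pos {d P : ℕ} {F : (ℕ → ℝ) → ℝ} (h : IsBasic d P F) : 1 ≤ d ∧ 1 ≤ P := by
  rcases h with ⟨rfl, rfl, _⟩ | ⟨rfl, rfl, _⟩ | ⟨rfl, rfl, _⟩ | ⟨rfl, rfl, _⟩ | ⟨rfl, rfl, _⟩ <;> omega

/-- every positive solution of a basic equation has its period -/
private theorem basic_period {d P : ℕ} {F : (ℕ → ℝ) → ℝ} (h : IsBasic d P F) (z : ℕ → ℝ) (hz : ∀ n, 0 < z n)
    (hrec : ∀ n, z (n + d) = F fun i => z (n + i)) : z P = z 0 := by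
  rcases h with ⟨rfl, rfl, rfl⟩ | ⟨rfl, rfl, rfl⟩ | ⟨rfl, rfl, rfl⟩ | ⟨rfl, rfl, rfl⟩ | ⟨rfl, rfl, rfl⟩
  · have h0 := hrec 0
    simpa using h0
  · have h0 := hrec 0
    have h1 := hrec 1
    simp only [zero_add, add_zero] at h0 h1
    have := (hz 0).ne'
    rw [show 2 = 1 + 1 from rfl, h1, h0]
    simp
  · have h0 := hrec 0
    have h1 := hrec 1
    have h2 := hrec 2
    have h3 := hrec 3
    have h4 := hrec 4
    simp only [zero_add, add_zero, Nat.reduceAdd] at h0 h1 h2 h3 h4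
    have e0 := (hz 0).ne'
    have e1 := (hz 1).ne'
    rw [h4, h3, h2, h1, h0]
    field_simp
  · have h0 := hrec 0
    have h1 := hrec 1
    have h2 := hrec 2
    have h3 := hrec 3
    simp only [zero_add, add_zero, Nat.reduceAdd] at h0 h1 h2 h3
    have e0 := hz 0
    have e1 := hz 1
    have e2 : 0 < 1 + z 1 := by linarith
    have e3 : 0 < 1 + z 0 := by linarith
    have g3 : z 3 = (1 + z 0 + z 1) / (z 0 * z 1) := by
      rw [h1, h0]
      field_simp
      try ring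
    have g4 : z 4 = (1 + z 0) / z 1 := by
      rw [h2, g3, h0]
      field_simp
      try ring
    rw [h3, g4, g3]
    field_simp
    try ring
  · have h0 := hrec 0
    have h1 := hrec 1
    have h2 := hrec 2
    have h3 := hrec 3
    have h4 := hrec 4
    have h5 := hrec 5
    simp only [zero_add, add_zero, Nat.reduceAdd] at h0 h1 h2 h3 h4 h5
    have e0 := hz 0
    have e1 := hz 1
    have e2 := hz 2
    have p1 : 0 < 1 + z 1 + z 2 := by linarith
    have p2 : 0 < 1 + z 0 + z 1 := by linarith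
    have p3 : 0 < (1 + z 0) * (1 + z 2) + z 1 := by positivity
    have g4 : z 4 = ((1 + z 0) * (1 + z 2) + z 1) / (z 0 * z 1) := by
      rw [h1, h0]
      field_simp
      ring
    have g5 : z 5 = (1 + z 0 + z 1) * (1 + z 1 + z 2) / (z 0 * z 1 * z 2) := by
      rw [h2, g4, h0]
      field_simp
      ring
    have g6 : z 6 = ((1 + z 0) * (1 + z 2) + z 1) / (z 1 * z 2) := by
      rw [h3, g5, g4, h0]
      field_simp
      ring
    have g7 : z 7 = (1 + z 0 + z 1) / z 2 := by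
      rw [h4, g6, g5, g4]
      field_simp
      ring
    rw [h5, g7, g6, g5]
    field_simp
    ring

/-- the recurrence of a sequence which depends only on the residue of the index -/
private theorem cyc_rec {P : ℕ} (hP : 0 < P) (L : ℕ → ℝ) {d : ℕ} {F : (ℕ → ℝ) → ℝ}
    (h : ∀ r < P, L ((r + d) % P) = F fun i => L ((r + i) % P)) (n : ℕ) :
    L ((n + d) % P) = F fun i => L ((n + i) % P) := by
  have h1 := h (n % P) (Nat.mod_lt _ hP)
  simpa only [Nat.mod_add_mod] using h1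

/-- two solutions of a basic equation: the first one takes its initial value only at the multiples of the period,
the second one does not take this value -/
private theorem basic_witness {d P : ℕ} {F : (ℕ → ℝ) → ℝ} (h : IsBasic d P F) :
    ∃ s s' : ℕ → ℝ, (∀ n, 0 < s n) ∧ (∀ n, 0 < s' n) ∧ (∀ n, s (n + d) = F fun i => s (n + i)) ∧
      (∀ n, s' (n + d) = F fun i => s' (n + i)) ∧ (∀ n, s n = s 0 → P ∣ n) ∧ ∀ n, s' n ≠ s 0 := by
  have key : ∀ L L' : ℕ → ℝ, 0 < P → (∀ r < P, 0 < L r) → (∀ r < P, 0 < L' r) →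
      (∀ r < P, L ((r + d) % P) = F fun i => L ((r + i) % P)) →
      (∀ r < P, L' ((r + d) % P) = F fun i => L' ((r + i) % P)) →
      (∀ r < P, L r = L 0 → r = 0) → (∀ r < P, L' r ≠ L 0) →
      ∃ s s' : ℕ → ℝ, (∀ n, 0 < s n) ∧ (∀ n, 0 < s' n) ∧ (∀ n, s (n + d) = F fun i => s (n + i)) ∧
      (∀ n, s' (n + d) = F fun i => s' (n + i)) ∧ (∀ n, s n = s 0 → P ∣ n) ∧ ∀ n, s' n ≠ s 0 := by
    intro L L' hP h1 h2 h3 h4 h5 h6
    refine ⟨fun n => L (n % P), fun n => L' (n % P), fun n => h1 _ (Nat.mod_lt _ hP),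
      fun n => h2 _ (Nat.mod_lt _ hP), cyc_rec hP L h3, cyc_rec hP L' h4, fun n hn => ?_, fun n => ?_⟩
    · simp only [Nat.zero_mod] at hn
      exact Nat.dvd_of_mod_eq_zero (h5 _ (Nat.mod_lt _ hP) hn)
    · simp only [Nat.zero_mod]
      exact h6 _ (Nat.mod_lt _ hP)
  rcases h with ⟨rfl, rfl, rfl⟩ | ⟨rfl, rfl, rfl⟩ | ⟨rfl, rfl, rfl⟩ | ⟨rfl, rfl, rfl⟩ | ⟨rfl, rfl, rfl⟩
  · refine key (fun _ => 2) (fun _ => 1) one_pos ?_ ?_ ?_ ?_ ?_ ?_ <;> intro r hr <;> interval_cases r <;>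
      norm_num
  · refine key (fun n => if n = 0 then 2 else 1 / 2) (fun _ => 1) two_pos ?_ ?_ ?_ ?_ ?_ ?_ <;> intro r hr <;>
      interval_cases r <;> norm_num
  · refine key (fun n => if n = 0 then 2 else if n = 1 then 3 else if n = 2 then 3 / 2 else if n = 3 then 1 / 2 else
      if n = 4 then 1 / 3 else 2 / 3) (fun _ => 1) (by norm_num) ?_ ?_ ?_ ?_ ?_ ?_ <;> intro r hr <;>
      interval_cases r <;> norm_num
  · refine key (fun n => if n = 0 then 3 else if n = 1 then 2 else if n = 2 then 1 else if n = 3 then 1 else 2)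
      (fun n => if n = 0 then 5 else if n = 1 then 5 else if n = 2 then 6 / 5 else if n = 3 then 11 / 25 else 6 / 5)
      (by norm_num) ?_ ?_ ?_ ?_ ?_ ?_ <;> intro r hr <;> interval_cases r <;> norm_num
  · refine key (fun n => if n = 0 then 9 else if n = 1 then 5 else if n = 2 then 3 else if n = 3 then 1 else
      if n = 4 then 1 else if n = 5 then 1 else if n = 6 then 3 else 5)
      (fun n => if n = 0 then 2 else if n = 1 then 2 else if n = 2 then 2 else if n = 3 then 5 / 2 else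
      if n = 4 then 11 / 4 else if n = 5 then 25 / 8 else if n = 6 then 11 / 4 else 5 / 2)
      (by norm_num) ?_ ?_ ?_ ?_ ?_ ?_ <;> intro r hr <;> interval_cases r <;> norm_num

/-! ### Equation (1) -/

section

variable {k : ℕ} {A B : Fin (k + 1) → ℝ}

private theorem rhs_pos (hA : ∀ i, 0 ≤ A i) (hB : ∀ i, 0 ≤ B i) (hAs : 0 < ∑ i, A i) (hBs : 0 < ∑ i, B i)
    {y : ℕ → ℝ} (hy : ∀ i < k, 0 < y i) : 0 < rhs k A B y :=
  div_pos (Pool.Agent.Helper60.Per.lin_pos hA hAs hy) (Pool.Agent.Helper60.Per.lin_pos hB hBs hy)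

private theorem sol_pos (hA : ∀ i, 0 ≤ A i) (hB : ∀ i, 0 ≤ B i) (hAs : 0 < ∑ i, A i)
    (hBs : 0 < ∑ i, B i) {x : ℕ → ℝ} (hx : IsSolution k A B x) (n : ℕ) : 0 < x n := by
  induction n using Nat.strong_induction_on with
  | _ n ih =>
    by_cases hn : n < k
    · exact hx.1 n hn
    · obtain ⟨m, rfl⟩ : ∃ m, n = m + k := ⟨n - k, by omega⟩
      rw [hx.2 m]
      exact rhs_pos hA hB hAs hBs fun i hi => ih (m + i) (by omega)

/-- the minimal period of an equation with a given right-hand side -/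
private theorem periodic_of (hA : ∀ i, 0 ≤ A i) (hB : ∀ i, 0 ≤ B i) (hAs : 0 < ∑ i, A i)
    (hBs : 0 < ∑ i, B i) {d P : ℕ} {F : (ℕ → ℝ) → ℝ} (h : IsBasic d P F) {ℓ : ℕ} (hℓ : 1 ≤ ℓ) {a : ℝ} (ha : 0 < a)
    (hkd : k = d * ℓ) (hF : ∀ y : ℕ → ℝ, (∀ i, 0 < y i) → rhs k A B y = a * F fun j => y (j * ℓ) / a) :
    IsPeriodic k A B (P * ℓ) := by
  refine ⟨⟨Nat.mul_pos (basic_pos h).2 hℓ, fun x hx n => ?_⟩, fun q hq => ?_⟩
  · have hpos := sol_pos hA hB hAs hBs hx
    have h1 := basic_period h (fun j => x (n + j * ℓ) / a) (fun j => div_pos (hpos _) ha) (fun j => by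
      have h2 := hx.2 (n + j * ℓ)
      rw [hF _ fun i => hpos _] at h2
      have h3 : n + (j + d) * ℓ = n + j * ℓ + k := by rw [hkd]; ring
      simp only [h3, h2]
      rw [mul_div_cancel_left₀ _ ha.ne']
      congr 1
      funext i
      have h4 : n + j * ℓ + i * ℓ = n + (j + i) * ℓ := by ring
      rw [h4])
    simp only [zero_mul, add_zero] at h1
    exact (div_left_inj' ha.ne').1 h1
  · obtain ⟨hq1, hq2⟩ := hq
    obtain ⟨s, s', hs, hs', hr, hr', hd, hne⟩ := basic_witness h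
    set x : ℕ → ℝ := fun n => a * if ℓ ∣ n then s (n / ℓ) else s' (n / ℓ) with hx
    have hxpos : ∀ n, 0 < x n := by
      intro n
      simp only [hx]
      split_ifs
      · exact mul_pos ha (hs _)
      · exact mul_pos ha (hs' _)
    have hstep : ∀ n j, x (n + j * ℓ) / a = if ℓ ∣ n then s (n / ℓ + j) else s' (n / ℓ + j) := by
      intro n j
      simp only [hx]
      rw [mul_div_cancel_left₀ _ ha.ne', Nat.add_mul_div_right _ _ hℓ]
      have h5 : ℓ ∣ n + j * ℓ ↔ ℓ ∣ n := (Nat.dvd_add_iff_left (Dvd.intro_left j rfl)).symm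
      simp only [h5]
    have hsol : IsSolution k A B x := by
      refine ⟨fun i _ => hxpos i, fun n => ?_⟩
      rw [hF _ fun i => hxpos _]
      simp only [hstep]
      have h6 : x (n + k) = a * (x (n + d * ℓ) / a) := by
        rw [hkd]
        field_simp
      rw [h6, hstep]
      congr 1
      by_cases hn : ℓ ∣ n
      · simp only [if_pos hn]
        exact hr _
      · simp only [if_neg hn]
        exact hr' _
    have h7 := hq2 x hsol 0
    rw [zero_add] at h7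
    have h8 : x 0 = a * s 0 := by simp [hx]
    have h9 : P * ℓ ∣ q := by
      by_cases hn : ℓ ∣ q
      · have h10 : x q = a * s (q / ℓ) := by simp only [hx, if_pos hn]
        rw [h10, h8] at h7
        have h11 := hd _ (mul_left_cancel₀ ha.ne' h7)
        have h12 := Nat.mul_dvd_mul_right h11 ℓ
        rwa [Nat.div_mul_cancel hn] at h12
      · have h10 : x q = a * s' (q / ℓ) := by simp only [hx, if_neg hn]
        rw [h10, h8] at h7
        exact absurd (mul_left_cancel₀ ha.ne' h7) (hne _)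
    exact Nat.le_of_dvd hq1 h9

private theorem equiv_of_periodic (hk : 1 ≤ k) (hA : ∀ i, 0 ≤ A i) (hB : ∀ i, 0 ≤ B i) (hAs : 0 < ∑ i, A i)
    (hBs : 0 < ∑ i, B i) (hAB : A 1 ^ 2 + B 1 ^ 2 ≠ 0) {p : ℕ} (hp : IsPeriodic k A B p) :
    IsEquivalent k A B p := by
  obtain ⟨ℓ, hℓ, a, ha, h⟩ := classify k hk A B hA hB hAs hBs hAB p hp.1.1 (fun x hx1 hx2 => hp.1.2 x ⟨hx1, hx2⟩)
  have key : ∀ (d P : ℕ) (F : (ℕ → ℝ) → ℝ), IsBasic d P F → k = d * ℓ →
      (∀ y : ℕ → ℝ, (∀ i, 0 < y i) → rhs k A B y = a * F fun j => y (j * ℓ) / a) → IsEquivalent k A B p := by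
    intro d P F hb hkd hF
    exact ⟨d, P, F, hb, ℓ, hℓ, a, ha, hkd,
      IsLeast.unique hp (periodic_of hA hB hAs hBs hb hℓ ha hkd hF), hF⟩
  rcases h with ⟨hkd, h⟩ | ⟨hkd, h⟩ | ⟨hkd, h⟩ | ⟨hkd, h⟩ | ⟨hkd, h⟩
  · refine key 1 1 (fun x => x 0) (Or.inl ⟨rfl, rfl, rfl⟩) (by omega) fun y hy => ?_
    simpa [rhs] using h y hy
  · refine key 1 2 (fun x => 1 / x 0) (Or.inr (Or.inl ⟨rfl, rfl, rfl⟩)) (by omega) fun y hy => ?_
    simpa [rhs] using h y hy
  · refine key 2 6 (fun x => x 1 / x 0) (Or.inr (Or.inr (Or.inl ⟨rfl, rfl, rfl⟩))) hkd fun y hy => ?_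
    have := h y hy
    simp only [zero_mul, one_mul]
    exact this
  · refine key 2 5 (fun x => (1 + x 1) / x 0) (Or.inr (Or.inr (Or.inr (Or.inl ⟨rfl, rfl, rfl⟩)))) hkd fun y hy => ?_
    have := h y hy
    simp only [zero_mul, one_mul]
    exact this
  · refine key 3 8 (fun x => (1 + x 1 + x 2) / x 0) (Or.inr (Or.inr (Or.inr (Or.inr ⟨rfl, rfl, rfl⟩)))) hkd
      fun y hy => ?_
    have := h y hy
    simp only [zero_mul, one_mul]
    exact this

private theorem coeff_of_equiv (hk : 1 ≤ k) (hA : ∀ i, 0 ≤ A i) (hB : ∀ i, 0 ≤ B i) (hAs : 0 < ∑ i, A i)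
    (hBs : 0 < ∑ i, B i) {p : ℕ} (h : IsEquivalent k A B p) : CoefficientForm k A B p := by
  obtain ⟨d, P, F, hb, ℓ, hℓ, a, ha, hkd, hp, hF⟩ := h
  have hNp : ∀ y : ℕ → ℝ, (∀ i, 0 < y i) → 0 < A 0 + ∑ i : Fin k, A i.succ * y (i : ℕ) := fun y hy =>
    Pool.Agent.Helper60.Per.lin_pos hA hAs fun i _ => hy i
  have hDp : ∀ y : ℕ → ℝ, (∀ i, 0 < y i) → 0 < B 0 + ∑ i : Fin k, B i.succ * y (i : ℕ) := fun y hy =>
    Pool.Agent.Helper60.Per.lin_pos hB hBs fun i _ => hy i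
  have hone : ((1 : Fin (k + 1)) : ℕ) = 1 := by
    obtain ⟨m, rfl⟩ : ∃ m, k = m + 1 := ⟨k - 1, by omega⟩
    simp
  rcases hb with ⟨rfl, rfl, rfl⟩ | ⟨rfl, rfl, rfl⟩ | ⟨rfl, rfl, rfl⟩ | ⟨rfl, rfl, rfl⟩ | ⟨rfl, rfl, rfl⟩
  · obtain ⟨h1, h2, h3⟩ := compare (N := B) (D := A) (g := fun i => if (i : ℕ) = 0 then 1 else 0) hk
      (by simp only [hone]; norm_num) hNp (fun y hy => by rw [lin_zero]; exact one_pos) (fun y hy => by
        have h4 := hF y hy
        unfold rhs at h4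
        simp only [zero_mul] at h4
        rw [mul_div_cancel₀ _ ha.ne'] at h4
        rw [lin_zero, ← h4, one_div_div])
    refine ⟨ℓ, a, A 1, hℓ, ha, h1, Or.inl ⟨by omega, by omega, h2, fun i => ?_⟩⟩
    rw [h3 i]
    simp only [mul_ite, mul_one, mul_zero]
  · obtain ⟨h1, h2, h3⟩ := compare (N := A) (D := B) (g := fun i => if (i : ℕ) = 0 then a ^ 2 else 0) hk
      (by simp only [hone]; norm_num) hDp (fun y hy => by rw [lin_zero]; positivity) (fun y hy => by
        have h4 := hF y hy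
        unfold rhs at h4
        simp only [zero_mul] at h4
        rw [lin_zero, h4]
        have := (hy 0).ne'
        field_simp)
    refine ⟨ℓ, a, B 1, hℓ, ha, h1, Or.inr (Or.inl ⟨by omega, by omega, fun i => ?_, h2⟩)⟩
    rw [h3 i]
    simp only [mul_ite, mul_zero]
  · obtain ⟨h1, h2, h3⟩ := compare (N := A) (D := B)
      (g := fun i => if (i : ℕ) = 0 then 0 else if (i : ℕ) = ℓ + 1 then a else 0) hk
      (by simp only [hone]; rw [if_neg (by omega), if_neg (by omega)]) hDp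
      (fun y hy => by rw [lin_mono (by omega)]; have := hy ℓ; positivity) (fun y hy => by
        have h4 := hF y hy
        unfold rhs at h4
        simp only [zero_mul, one_mul] at h4
        rw [lin_mono (by omega), h4]
        have := (hy 0).ne'
        field_simp
        try ring)
    refine ⟨ℓ, a, B 1, hℓ, ha, h1, Or.inr (Or.inr (Or.inl ⟨hkd, hp, fun i => ?_, h2⟩))⟩
    rw [h3 i]
    by_cases hi : (i : ℕ) = 0
    · rw [if_pos hi, if_neg (by omega), mul_zero]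
    · rw [if_neg hi]
      simp only [mul_ite, mul_zero]
  · obtain ⟨h1, h2, h3⟩ := compare (N := A) (D := B)
      (g := fun i => if (i : ℕ) = 0 then a ^ 2 else if (i : ℕ) = ℓ + 1 then a else 0) hk
      (by simp only [hone]; rw [if_neg (by omega), if_neg (by omega)]) hDp
      (fun y hy => by rw [lin_mono (by omega)]; have := hy ℓ; positivity) (fun y hy => by
        have h4 := hF y hy
        unfold rhs at h4
        simp only [zero_mul, one_mul] at h4
        rw [lin_mono (by omega), h4]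
        have := (hy 0).ne'
        field_simp
        try ring)
    refine ⟨ℓ, a, B 1, hℓ, ha, h1, Or.inr (Or.inr (Or.inr (Or.inl ⟨hkd, hp, fun i => ?_, h2⟩)))⟩
    rw [h3 i]
    simp only [mul_ite, mul_zero]
  · obtain ⟨h1, h2, h3⟩ := compare (N := A) (D := B)
      (g := fun i => if (i : ℕ) = 0 then a ^ 2 else if (i : ℕ) = ℓ + 1 ∨ (i : ℕ) = 2 * ℓ + 1 then a else 0) hk
      (by simp only [hone]; rw [if_neg (by omega), if_neg (by omega)]) hDp
      (fun y hy => by rw [lin_two hℓ (by omega)]; have := hy ℓ; have := hy (2 * ℓ); positivity) (fun y hy => by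
        have h4 := hF y hy
        unfold rhs at h4
        simp only [zero_mul, one_mul] at h4
        rw [lin_two hℓ (by omega), h4]
        have := (hy 0).ne'
        field_simp
        try ring)
    refine ⟨ℓ, a, B 1, hℓ, ha, h1, Or.inr (Or.inr (Or.inr (Or.inr ⟨hkd, hp, fun i => ?_, h2⟩)))⟩
    rw [h3 i]
    simp only [mul_ite, mul_zero]

private theorem equiv_of_coeff {p : ℕ} (h : CoefficientForm k A B p) : IsEquivalent k A B p := by
  obtain ⟨ℓ, a, c, hℓ, ha, hc, h⟩ := h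
  rcases h with ⟨hkd, hp, h1, h2⟩ | ⟨hkd, hp, h1, h2⟩ | ⟨hkd, hp, h1, h2⟩ | ⟨hkd, hp, h1, h2⟩ | ⟨hkd, hp, h1, h2⟩ <;>
    obtain rfl := funext h1 <;> obtain rfl := funext h2
  · refine ⟨1, 1, fun x => x 0, Or.inl ⟨rfl, rfl, rfl⟩, ℓ, hℓ, a, ha, by omega, by omega, fun y hy => ?_⟩
    unfold rhs
    rw [lin_one (by omega), lin_zero]
    simp only [zero_mul]
    field_simp
  · refine ⟨1, 2, fun x => 1 / x 0, Or.inr (Or.inl ⟨rfl, rfl, rfl⟩), ℓ, hℓ, a, ha, by omega, by omega,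
      fun y hy => ?_⟩
    unfold rhs
    rw [lin_one (by omega), lin_zero]
    simp only [zero_mul]
    have := (hy 0).ne'
    field_simp
  · refine ⟨2, 6, fun x => x 1 / x 0, Or.inr (Or.inr (Or.inl ⟨rfl, rfl, rfl⟩)), ℓ, hℓ, a, ha, hkd, hp,
      fun y hy => ?_⟩
    have h3 : (fun i : Fin (k + 1) => if (i : ℕ) = ℓ + 1 then c * a else 0) =
        fun i : Fin (k + 1) => if (i : ℕ) = 0 then 0 else if (i : ℕ) = ℓ + 1 then c * a else 0 := by
      funext i
      by_cases hi : (i : ℕ) = 0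
      · rw [if_pos hi, if_neg (by omega)]
      · rw [if_neg hi]
    rw [h3]
    unfold rhs
    rw [lin_one (by omega), lin_mono (by omega)]
    simp only [zero_mul, one_mul]
    have := (hy 0).ne'
    field_simp
    try ring
  · refine ⟨2, 5, fun x => (1 + x 1) / x 0, Or.inr (Or.inr (Or.inr (Or.inl ⟨rfl, rfl, rfl⟩))), ℓ, hℓ, a, ha, hkd,
      hp, fun y hy => ?_⟩
    unfold rhs
    rw [lin_one (by omega), lin_mono (by omega)]
    simp only [zero_mul, one_mul]
    have := (hy 0).ne'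
    field_simp
    try ring
  · refine ⟨3, 8, fun x => (1 + x 1 + x 2) / x 0, Or.inr (Or.inr (Or.inr (Or.inr ⟨rfl, rfl, rfl⟩))), ℓ, hℓ, a, ha,
      hkd, hp, fun y hy => ?_⟩
    unfold rhs
    rw [lin_one (by omega), lin_two hℓ (by omega)]
    simp only [zero_mul, one_mul]
    have := (hy 0).ne'
    field_simp
    try ring

end

/-- For `k ≥ 1` and nonnegative coefficients with `∑ A_i > 0`, `∑ B_i > 0` and `A_1² + B_1² ≠ 0`, equation (1) is
`p`-periodic (with minimal `p`) if and only if it is obtained from one of the five basic equations by the passage to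
a step `ℓ` and a rescaling and `p` is `ℓ` times the period of this basic equation; and if and only if its coefficients
have one of the five forms in `CoefficientForm`. -/
theorem result (k : ℕ) (hk : 1 ≤ k) (A B : Fin (k + 1) → ℝ) (hA : ∀ i, 0 ≤ A i) (hB : ∀ i, 0 ≤ B i)
    (hAs : 0 < ∑ i, A i) (hBs : 0 < ∑ i, B i) (hAB : A 1 ^ 2 + B 1 ^ 2 ≠ 0) (p : ℕ) :
    (IsPeriodic k A B p ↔ IsEquivalent k A B p) ∧ (IsPeriodic k A B p ↔ CoefficientForm k A B p) := by
  have h1 : IsPeriodic k A B p ↔ IsEquivalent k A B p := by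
    refine ⟨equiv_of_periodic hk hA hB hAs hBs hAB, ?_⟩
    rintro ⟨d, P, F, hb, ℓ, hℓ, a, ha, hkd, rfl, hF⟩
    exact periodic_of hA hB hAs hBs hb hℓ ha hkd hF
  exact ⟨h1, h1.trans ⟨coeff_of_equiv hk hA hB hAs hBs, equiv_of_coeff⟩⟩

end Pool.Agent.Results.MP_3c0c89_an.PeriodicEquations
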